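import Pool.Agent.H38.PS.Targets
import Pool.Agent.H86.RB.SMO

/-! REM: removal of a set of primes of small weight. -/

set_option autoImplicit false

open Pool.Agent.H38.RB Pool.Agent.H38.PS

namespace Pool.Agent.H97.PS

private theorem pr_lt {x : Fin 3 → ℤ} (hx : Adm x) : pr x < ht x ^ 3 := by
  have hH := smo_ht_two hx
  unfold pr
  rw [Int.natAbs_mul, Int.natAbs_mul]
  have h0 : (x 0).natAbs ≤ ht x := le_max_left _ _
  have h1 : (x 1).natAbs ≤ ht x := (le_max_left _ _).trans (le_max_right _ _)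
  have h2 : (x 2).natAbs ≤ ht x := (le_max_right _ _).trans (le_max_right _ _)
  have hp2 : 0 < (x 2).natAbs := Nat.pos_of_ne_zero (Int.natAbs_ne_zero.2 (hx.1 2))
  have hp1 : 0 < (x 1).natAbs := Nat.pos_of_ne_zero (Int.natAbs_ne_zero.2 (hx.1 1))
  have hco : Nat.Coprime (x 0).natAbs (x 1).natAbs :=
    Int.isCoprime_iff_gcd_eq_one.1 (hx.2.1 0 1 (by decide))
  have hlt : (x 0).natAbs * (x 1).natAbs < ht x * ht x := by
    rcases lt_or_eq_of_le h0 with h | h
    · exact Nat.mul_lt_mul_of_lt_of_le h h1 (by omega)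
    · rcases lt_or_eq_of_le h1 with h' | h'
      · exact Nat.mul_lt_mul_of_le_of_lt h0 h' (by omega)
      · exfalso
        rw [h, h'] at hco
        have := (Nat.coprime_self _).1 hco
        omega
  calc (x 0).natAbs * (x 1).natAbs * (x 2).natAbs < ht x * ht x * ht x :=
        Nat.mul_lt_mul_of_lt_of_le hlt h2 (by omega)
    _ = ht x ^ 3 := by ring

private theorem tp_self {m : ℕ} (hm : m ≠ 0) : tp m.primeFactors m = m := by
  unfold tp
  exact Nat.prod_factorization_pow_eq_self hm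

theorem pf_REM : T_REM := by
  intro x hx
  have hH2 : (2 : ℝ) ≤ ht x := by exact_mod_cast smo_ht_two hx
  have hlog : 0 < Real.log (ht x) := Real.log_pos (by linarith)
  have hT : ∀ p ∈ (pr x).primeFactors, p.Prime := fun p hp => Nat.prime_of_mem_primeFactors hp
  have hm := del_pr_ne hx
  have hm0 : (0 : ℝ) < pr x := by exact_mod_cast Nat.pos_of_ne_zero hm
  refine ⟨?_, ?_⟩
  · rw [← Finset.sum_div, ← smo_log_tp _ hT, div_lt_iff₀ hlog, tp_self hm]
    have h1 : (pr x : ℝ) < (ht x : ℝ) ^ 3 := by exact_mod_cast pr_lt hx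
    have h2 := Real.log_lt_log hm0 h1
    rw [Real.log_pow] at h2
    push_cast at h2
    exact h2
  · intro D hD hsum
    have hTD : ∀ p ∈ D, p.Prime := fun p hp => hT p (hD hp)
    refine ⟨hx, ?_⟩
    have h1 : (pr x : ℝ) = (tp D (pr x) : ℝ) * (tp ((pr x).primeFactors \ D) (pr x) : ℝ) := by
      have h : pr x = tp D (pr x) * tp ((pr x).primeFactors \ D) (pr x) := by
        conv_lhs => rw [← tp_self hm]
        unfold tp
        rw [mul_comm]
        exact (Finset.prod_sdiff hD).symm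
      exact_mod_cast h
    have h2 : (tp D (pr x) : ℝ) ≤ (ht x : ℝ) ^ (6 / 7 : ℝ) := by
      have h3 := hsum
      rw [← Finset.sum_div, ← smo_log_tp D hTD, div_le_iff₀ hlog] at h3
      rw [← Real.log_le_log_iff (smo_tp_pos D hTD _) (Real.rpow_pos_of_pos (by linarith) _),
        Real.log_rpow (by linarith)]
      exact h3
    calc (pr x : ℝ) = (tp D (pr x) : ℝ) * (tp ((pr x).primeFactors \ D) (pr x) : ℝ) := h1
      _ ≤ (ht x : ℝ) ^ (6 / 7 : ℝ) * (tp ((pr x).primeFactors \ D) (pr x) : ℝ) :=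
          mul_le_mul_of_nonneg_right h2 (Nat.cast_nonneg _)

end Pool.Agent.H97.PS
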